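import Mathlib

set_option autoImplicit false
open MeasureTheory Filter

namespace Pool.Agent.Results.MP_6cf06e_an.IndexNotOne

section Defs

variable {𝕜 : Type*} [RCLike 𝕜] {X : Type*} [NormedAddCommGroup X] [NormedSpace 𝕜 X]

/-- The norm `‖P‖ = sup {‖P(x)‖ : ‖x‖ = 1}` of the continuous `k`-homogeneous polynomial
`P(x) = A(x,…,x)` given by the continuous `k`-linear map `A : X^k → X`. -/
noncomputable def polyNorm {k : ℕ} (A : ContinuousMultilinearMap 𝕜 (fun _ : Fin k => X) X) : ℝ :=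
  sSup {r : ℝ | ∃ x : X, ‖x‖ = 1 ∧ r = ‖A (fun _ => x)‖}

/-- The numerical radius `v(P) = sup {|φ(P(x))| : ‖x‖ = ‖φ‖ = φ(x) = 1}` of the polynomial
`P(x) = A(x,…,x)`. -/
noncomputable def numRadius {k : ℕ} (A : ContinuousMultilinearMap 𝕜 (fun _ : Fin k => X) X) : ℝ :=
  sSup {r : ℝ | ∃ (x : X) (φ : X →L[𝕜] 𝕜), ‖x‖ = 1 ∧ ‖φ‖ = 1 ∧ φ x = 1 ∧ r = ‖φ (A (fun _ => x))‖}

variable (𝕜 X) in
/-- The `k`-th polynomial numerical index `n^{(k)}(X) = inf {v(P) : P ∈ 𝒫(^k X; X), ‖P‖ = 1}`. -/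
noncomputable def polyIndex (k : ℕ) : ℝ :=
  sInf {v : ℝ | ∃ A : ContinuousMultilinearMap 𝕜 (fun _ : Fin k => X) X, polyNorm A = 1 ∧ v = numRadius A}

/-- the 2-linear map of a bilinear map. -/
noncomputable def toMulti (B : X →L[𝕜] X →L[𝕜] X) : ContinuousMultilinearMap 𝕜 (fun _ : Fin 2 => X) X :=
  ContinuousLinearMap.uncurryLeft
    (((continuousMultilinearCurryFin1 𝕜 X X).symm.toContinuousLinearEquiv :
      (X →L[𝕜] X) →L[𝕜] _).comp B)

lemma toMulti_apply (B : X →L[𝕜] X →L[𝕜] X) (x : X) : toMulti B (fun _ => x) = B x x := by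
  simp [toMulti]
  rfl

lemma numRadius_nonneg {k : ℕ} (A : ContinuousMultilinearMap 𝕜 (fun _ : Fin k => X) X) :
    0 ≤ numRadius A := by
  apply Real.sSup_nonneg
  rintro r ⟨x, φ, -, -, -, rfl⟩
  exact norm_nonneg _

variable (𝕜 X) in
/-- There is a norm-one continuous 2-homogeneous polynomial `P(x) = A(x,x)` on `X` with
`|φ(P(x))| ≤ 1/2` whenever `‖x‖ = ‖φ‖ = φ(x) = 1`; and the second polynomial numerical index
of `X` is at most `1/2` (so it is not `1`). -/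
def HalfBound : Prop :=
  (∃ A : ContinuousMultilinearMap 𝕜 (fun _ : Fin 2 => X) X, polyNorm A = 1 ∧
    ∀ (x : X) (φ : X →L[𝕜] 𝕜), ‖x‖ = 1 → ‖φ‖ = 1 → φ x = 1 → ‖φ (A (fun _ => x))‖ ≤ 1/2) ∧
  polyIndex 𝕜 X 2 ≤ 1/2

lemma index_le (B : X →L[𝕜] X →L[𝕜] X) (hb : ∀ x : X, ‖x‖ = 1 → ‖B x x‖ ≤ 1)
    (x0 : X) (hx0 : ‖x0‖ = 1) (hB : 1 ≤ ‖B x0 x0‖)
    (hr : ∀ (x : X) (φ : X →L[𝕜] 𝕜), ‖x‖ = 1 → ‖φ‖ = 1 → φ x = 1 → ‖φ (B x x)‖ ≤ 1/2) :
    HalfBound 𝕜 X := by
  have h1 : polyNorm (toMulti B) = 1 := by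
    apply le_antisymm
    · apply Real.sSup_le _ zero_le_one
      rintro r ⟨x, hx, rfl⟩
      rw [toMulti_apply]
      exact hb x hx
    · refine hB.trans ?_
      apply le_csSup
      · refine ⟨1, ?_⟩
        rintro r ⟨x, hx, rfl⟩
        rw [toMulti_apply]
        exact hb x hx
      · exact ⟨x0, hx0, by rw [toMulti_apply]⟩
  have h2 : numRadius (toMulti B) ≤ 1/2 := by
    apply Real.sSup_le _ (by norm_num)
    rintro r ⟨x, φ, hx, hφ, hφx, rfl⟩
    rw [toMulti_apply]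
    exact hr x φ hx hφ hφx
  refine ⟨⟨toMulti B, h1, fun x φ hx hφ hφx => ?_⟩, le_trans (csInf_le ⟨0, ?_⟩ ⟨_, h1, rfl⟩) h2⟩
  · rw [toMulti_apply]
    exact hr x φ hx hφ hφx
  · rintro v ⟨A, -, rfl⟩
    exact numRadius_nonneg A

end Defs

section Cont

noncomputable def BC : C(unitInterval, ℝ) →L[ℝ] C(unitInterval, ℝ) →L[ℝ] C(unitInterval, ℝ) :=
  (ContinuousMap.evalCLM ℝ (1 : unitInterval)).smulRight
    ((ContinuousMap.evalCLM ℝ (1 : unitInterval)).smulRight (1 : C(unitInterval, ℝ)))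
    - (1/2 : ℝ) • ContinuousLinearMap.mul ℝ C(unitInterval, ℝ)

lemma BC_apply (x : C(unitInterval, ℝ)) (t : unitInterval) : BC x x t = x 1 ^ 2 - (1/2) * x t ^ 2 := by
  simp [BC]
  ring

lemma bdd {x : C(unitInterval, ℝ)} (hx : ‖x‖ = 1) (t : unitInterval) : -1 ≤ x t ∧ x t ≤ 1 := by
  have := x.norm_coe_le_norm t
  rw [hx, Real.norm_eq_abs] at this
  exact abs_le.1 this

lemma cont_index : HalfBound ℝ C(unitInterval, ℝ) := by
  have hone : ∀ x : C(unitInterval, ℝ), ‖x‖ = 1 → ‖BC x x‖ ≤ 1 := by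
    intro x hx
    rw [ContinuousMap.norm_le _ zero_le_one]
    intro t
    rw [BC_apply, Real.norm_eq_abs, abs_le]
    have h1 := bdd hx 1
    have h2 := bdd hx t
    constructor <;> nlinarith
  refine index_le BC hone ⟨fun t => (t : ℝ), by fun_prop⟩ ?_ ?_ ?_
  · apply le_antisymm
    · rw [ContinuousMap.norm_le _ zero_le_one]
      intro t
      simp only [ContinuousMap.coe_mk, Real.norm_eq_abs, abs_le]
      exact ⟨by linarith [t.2.1], t.2.2⟩
    · have := ContinuousMap.norm_coe_le_norm (⟨fun t => (t : ℝ), by fun_prop⟩ : C(unitInterval, ℝ)) 1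
      simpa using this
  · have := ContinuousMap.norm_coe_le_norm
      (BC (⟨fun t => (t : ℝ), by fun_prop⟩ : C(unitInterval, ℝ)) ⟨fun t => (t : ℝ), by fun_prop⟩) 0
    rw [BC_apply] at this
    simpa using this
  · intro x φ hx hφ hφx
    have key : ∀ s : ℝ, (s = 1 ∨ s = -1) → ‖x + s • BC x x‖ ≤ 3/2 := by
      intro s hs
      rw [ContinuousMap.norm_le _ (by norm_num)]
      intro t
      simp only [ContinuousMap.add_apply, ContinuousMap.smul_apply, smul_eq_mul, BC_apply,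
        Real.norm_eq_abs, abs_le]
      have h1 := bdd hx 1
      have h2 := bdd hx t
      rcases hs with rfl | rfl
      · constructor <;> nlinarith [sq_nonneg (x t - 1), sq_nonneg (x t + 1), sq_nonneg (x 1)]
      · constructor <;> nlinarith [sq_nonneg (x t - 1), sq_nonneg (x t + 1), sq_nonneg (x 1)]
    have h1 : 1 + φ (BC x x) ≤ 3/2 := by
      have h := (φ.le_opNorm (x + (1:ℝ) • BC x x)).trans
        (mul_le_mul_of_nonneg_left (key 1 (Or.inl rfl)) (norm_nonneg _))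
      rw [hφ, one_mul] at h
      have h' := (le_abs_self _).trans h
      rw [map_add, map_smul, hφx] at h'
      simpa using h'
    have h2 : 1 - φ (BC x x) ≤ 3/2 := by
      have h := (φ.le_opNorm (x + (-1:ℝ) • BC x x)).trans
        (mul_le_mul_of_nonneg_left (key (-1) (Or.inr rfl)) (norm_nonneg _))
      rw [hφ, one_mul] at h
      have h' := (le_abs_self _).trans h
      rw [map_add, map_smul, hφx] at h'
      simp only [smul_eq_mul] at h'
      linarith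
    rw [Real.norm_eq_abs, abs_le]
    constructor <;> linarith

end Cont

section Sum

variable {𝕜 : Type*} [RCLike 𝕜] {X : Type*} [NormedAddCommGroup X] [NormedSpace 𝕜 X]

noncomputable def BS (p q : X →L[𝕜] X) (f g : X →L[𝕜] 𝕜) : X →L[𝕜] X →L[𝕜] X :=
  ((1/2 : 𝕜) • f + (2 : 𝕜) • g).smulRight p - ((1/2 : 𝕜) • g + f).smulRight q

lemma BS_apply (p q : X →L[𝕜] X) (f g : X →L[𝕜] 𝕜) (x : X) :
    BS p q f g x x = ((1/2) * f x + 2 * g x) • p x - ((1/2) * g x + f x) • q x := by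
  simp [BS]

lemma num_bd {α β : ℝ} (hα : 0 ≤ α) (hβ : 0 ≤ β) (h : α + β = 1) :
    α * |1/2 * α - β| + β * |2 * α - 1/2 * β| ≤ 1/2 := by
  obtain rfl : β = 1 - α := by linarith
  rcases abs_cases (1/2 * α - (1 - α)) with ⟨h1, h1'⟩ | ⟨h1, h1'⟩ <;>
    rcases abs_cases (2 * α - 1/2 * (1 - α)) with ⟨h2, h2'⟩ | ⟨h2, h2'⟩ <;>
    rw [h1, h2] <;> nlinarith [sq_nonneg (α - 1), sq_nonneg (2 * α - 1), sq_nonneg α]

lemma sum_index (p q : X →L[𝕜] X) (f g : X →L[𝕜] 𝕜) (hpq : ∀ x, p x + q x = x)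
    (hn : ∀ x, ‖x‖ = ‖p x‖ + ‖q x‖) (hf : ∀ x, ‖f x‖ ≤ ‖p x‖) (hg : ∀ x, ‖g x‖ ≤ ‖q x‖)
    (u v : X) (hpu : p u = u) (hqv : q v = v) (hu : ‖u‖ = 1) (hv : ‖v‖ = 1) (hfu : f u = 1)
    (hgv : g v = 1) : HalfBound 𝕜 X := by
  have hqu : q u = 0 := by
    have := hn u
    rw [hpu] at this
    exact norm_eq_zero.1 (by linarith)
  have hpv : p v = 0 := by
    have := hn v
    rw [hqv] at this
    exact norm_eq_zero.1 (by linarith)
  have hgu : g u = 0 := by
    have := hg u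
    rw [hqu, norm_zero] at this
    exact norm_eq_zero.1 (le_antisymm this (norm_nonneg _))
  have hfv : f v = 0 := by
    have := hf v
    rw [hpv, norm_zero] at this
    exact norm_eq_zero.1 (le_antisymm this (norm_nonneg _))
  have hhalf : ‖(1/2 : 𝕜)‖ = 1/2 := by simp
  have htwo : ‖(2 : 𝕜)‖ = 2 := by simp
  have hc1 : ∀ x, ‖(1/2) * f x + 2 * g x‖ ≤ 1/2 * ‖p x‖ + 2 * ‖q x‖ := by
    intro x
    refine (norm_add_le _ _).trans ?_
    rw [norm_mul, norm_mul, hhalf, htwo]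
    have := hf x; have := hg x
    linarith
  have hc2 : ∀ x, ‖(1/2) * g x + f x‖ ≤ 1/2 * ‖q x‖ + ‖p x‖ := by
    intro x
    refine (norm_add_le _ _).trans ?_
    rw [norm_mul, hhalf]
    have := hf x; have := hg x
    linarith
  have hpp : ∀ x, ‖x‖ = 1 → ‖BS p q f g x x‖ ≤ 1 := by
    intro x hx
    rw [BS_apply]
    refine (norm_sub_le _ _).trans ?_
    rw [norm_smul, norm_smul]
    have h1 := mul_le_mul_of_nonneg_right (hc1 x) (norm_nonneg (p x))
    have h2 := mul_le_mul_of_nonneg_right (hc2 x) (norm_nonneg (q x))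
    have h3 : ‖q x‖ = 1 - ‖p x‖ := by linarith [hn x]
    rw [h3] at h1 h2 ⊢
    nlinarith [sq_nonneg (2 * ‖p x‖ - 1)]
  refine index_le (BS p q f g) hpp ((1/2 : 𝕜) • (u + v)) ?_ ?_ ?_
  · rw [hn]
    simp only [map_smul, map_add, hpu, hpv, hqu, hqv, add_zero, zero_add, norm_smul, hhalf, hu, hv]
    norm_num
  · rw [BS_apply]
    simp only [map_smul, map_add, hpu, hpv, hqu, hqv, hfu, hfv, hgu, hgv, add_zero, zero_add,
      smul_eq_mul, mul_one]
    have he : ((1/2 : 𝕜) * (1/2 : 𝕜) + (2 : 𝕜) * (1/2 : 𝕜)) • (1/2 : 𝕜) • u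
        - ((1/2 : 𝕜) * (1/2 : 𝕜) + (1/2 : 𝕜)) • (1/2 : 𝕜) • v = (5/8 : 𝕜) • u - (3/8 : 𝕜) • v := by
      rw [smul_smul, smul_smul]
      congr 2 <;> norm_num
    rw [he, hn]
    simp only [map_sub, map_smul, hpu, hpv, hqu, hqv, smul_zero, sub_zero, zero_sub, norm_neg,
      norm_smul, hu, hv]
    simp
    norm_num
  · intro x φ hx hφ hφx
    have hop : ∀ y, ‖φ y‖ ≤ ‖y‖ := by
      intro y
      have := φ.le_opNorm y
      rwa [hφ, one_mul] at this
    have hsum : φ (p x) + φ (q x) = 1 := by rw [← map_add, hpq, hφx]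
    have hx1 : ‖p x‖ + ‖q x‖ = 1 := by rw [← hn, hx]
    have hre : RCLike.re (φ (p x)) + RCLike.re (φ (q x)) = 1 := by
      rw [← map_add, hsum]; simp
    have hre1 : RCLike.re (φ (p x)) ≤ ‖φ (p x)‖ := RCLike.re_le_norm _
    have hre2 : RCLike.re (φ (q x)) ≤ ‖φ (q x)‖ := RCLike.re_le_norm _
    have ha : φ (p x) = ((‖p x‖ : ℝ) : 𝕜) := by
      have e1 : ‖φ (p x)‖ ≤ RCLike.re (φ (p x)) := by linarith [hop (p x), hop (q x)]
      have e3 : RCLike.re (φ (p x)) = ‖p x‖ := by linarith [hop (p x), hop (q x)]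
      rw [← RCLike.re_eq_self_of_le e1, e3]
    have hb : φ (q x) = ((‖q x‖ : ℝ) : 𝕜) := by
      have e1 : ‖φ (q x)‖ ≤ RCLike.re (φ (q x)) := by linarith [hop (p x), hop (q x)]
      have e3 : RCLike.re (φ (q x)) = ‖q x‖ := by linarith [hop (p x), hop (q x)]
      rw [← RCLike.re_eq_self_of_le e1, e3]
    have hval : φ (BS p q f g x x) = f x * ((1/2 * ‖p x‖ - ‖q x‖ : ℝ) : 𝕜)
        + g x * ((2 * ‖p x‖ - 1/2 * ‖q x‖ : ℝ) : 𝕜) := by
      rw [BS_apply, map_sub, map_smul, map_smul, ha, hb]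
      simp only [smul_eq_mul]
      push_cast
      ring
    rw [hval]
    refine (norm_add_le _ _).trans ?_
    rw [norm_mul, norm_mul, RCLike.norm_ofReal, RCLike.norm_ofReal]
    refine le_trans (add_le_add (mul_le_mul_of_nonneg_right (hf x) (abs_nonneg _))
      (mul_le_mul_of_nonneg_right (hg x) (abs_nonneg _))) ?_
    exact num_bd (norm_nonneg _) (norm_nonneg _) hx1

end Sum

section L1

variable {𝕜 : Type*} [RCLike 𝕜] {α : Type*} [MeasurableSpace α] {μ : Measure α}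

/-- restriction `x ↦ 1_A x` on `L₁(μ)`, as a function. -/
noncomputable def resFun {A : Set α} (hA : MeasurableSet A) (x : Lp 𝕜 1 μ) : Lp 𝕜 1 μ :=
  MemLp.toLp (A.indicator (x : α → 𝕜)) ((Lp.memLp x).indicator hA)

lemma resFun_coe {A : Set α} (hA : MeasurableSet A) (x : Lp 𝕜 1 μ) :
    (resFun hA x : α → 𝕜) =ᵐ[μ] A.indicator (x : α → 𝕜) := MemLp.coeFn_toLp _

lemma resFun_add {A : Set α} (hA : MeasurableSet A) (x y : Lp 𝕜 1 μ) :
    resFun hA (x + y) = resFun hA x + resFun hA y := by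
  apply Lp.ext
  filter_upwards [Lp.coeFn_add x y, resFun_coe hA x, resFun_coe hA y, resFun_coe hA (x + y),
    Lp.coeFn_add (resFun hA x) (resFun hA y)] with a h1 h2 h3 h4 h5
  rw [h4, h5, Pi.add_apply, h2, h3]
  by_cases ha : a ∈ A
  · rw [Set.indicator_of_mem ha, Set.indicator_of_mem ha, Set.indicator_of_mem ha, h1, Pi.add_apply]
  · rw [Set.indicator_of_notMem ha, Set.indicator_of_notMem ha, Set.indicator_of_notMem ha, add_zero]

lemma resFun_smul {A : Set α} (hA : MeasurableSet A) (c : 𝕜) (x : Lp 𝕜 1 μ) :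
    resFun hA (c • x) = c • resFun hA x := by
  apply Lp.ext
  filter_upwards [Lp.coeFn_smul c x, resFun_coe hA x, resFun_coe hA (c • x),
    Lp.coeFn_smul c (resFun hA x)] with a h1 h2 h4 h5
  rw [h4, h5, Pi.smul_apply, h2]
  by_cases ha : a ∈ A
  · rw [Set.indicator_of_mem ha, Set.indicator_of_mem ha, h1, Pi.smul_apply]
  · rw [Set.indicator_of_notMem ha, Set.indicator_of_notMem ha, smul_zero]

lemma resFun_norm {A : Set α} (hA : MeasurableSet A) (x : Lp 𝕜 1 μ) : ‖resFun hA x‖ ≤ 1 * ‖x‖ := by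
  unfold resFun
  rw [one_mul, Lp.norm_toLp, Lp.norm_def]
  exact ENNReal.toReal_mono (Lp.eLpNorm_ne_top x) (eLpNorm_indicator_le _)

/-- restriction `x ↦ 1_A x` on `L₁(μ)`. -/
noncomputable def res {A : Set α} (hA : MeasurableSet A) : Lp 𝕜 1 μ →L[𝕜] Lp 𝕜 1 μ :=
  LinearMap.mkContinuous
    { toFun := resFun hA
      map_add' := resFun_add hA
      map_smul' := resFun_smul hA } 1 (resFun_norm hA)

lemma res_coe {A : Set α} (hA : MeasurableSet A) (x : Lp 𝕜 1 μ) :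
    (res hA x : α → 𝕜) =ᵐ[μ] A.indicator (x : α → 𝕜) := resFun_coe hA x

lemma norm_res {A : Set α} (hA : MeasurableSet A) (x : Lp 𝕜 1 μ) :
    ‖res hA x‖ = ∫ a in A, ‖x a‖ ∂μ := by
  rw [L1.norm_eq_integral_norm, ← integral_indicator hA]
  apply integral_congr_ae
  filter_upwards [res_coe hA x] with a ha
  rw [ha, norm_indicator_eq_indicator_norm]

lemma res_add {A : Set α} (hA : MeasurableSet A) (x : Lp 𝕜 1 μ) :
    res hA x + res hA.compl x = x := by
  apply Lp.ext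
  filter_upwards [Lp.coeFn_add (res hA x) (res hA.compl x), res_coe hA x, res_coe hA.compl x] with a h1 h2 h3
  rw [h1, Pi.add_apply, h2, h3]
  by_cases ha : a ∈ A
  · simp [ha]
  · simp [ha]

lemma norm_res_add {A : Set α} (hA : MeasurableSet A) (x : Lp 𝕜 1 μ) :
    ‖x‖ = ‖res hA x‖ + ‖res hA.compl x‖ := by
  rw [norm_res, norm_res, L1.norm_eq_integral_norm, integral_add_compl hA (L1.integrable_coeFn x).norm]

lemma int_add (u v : Lp 𝕜 1 μ) :
    ∫ a, ((u + v : Lp 𝕜 1 μ) : α → 𝕜) a ∂μ = ∫ a, (u : α → 𝕜) a ∂μ + ∫ a, (v : α → 𝕜) a ∂μ := by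
  rw [← integral_add (L1.integrable_coeFn u) (L1.integrable_coeFn v)]
  exact integral_congr_ae (Lp.coeFn_add u v)

lemma int_smul (c : 𝕜) (u : Lp 𝕜 1 μ) :
    ∫ a, ((c • u : Lp 𝕜 1 μ) : α → 𝕜) a ∂μ = c • ∫ a, (u : α → 𝕜) a ∂μ := by
  rw [← integral_smul]
  exact integral_congr_ae (Lp.coeFn_smul c u)

/-- the functional `x ↦ ∫_A x`. -/
noncomputable def fn {A : Set α} (hA : MeasurableSet A) : Lp 𝕜 1 μ →L[𝕜] 𝕜 :=
  LinearMap.mkContinuous
    { toFun := fun x => ∫ a, (res hA x : α → 𝕜) a ∂μ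
      map_add' := fun x y => by rw [map_add, int_add]
      map_smul' := fun c x => by rw [map_smul, int_smul]; rfl } 1 (fun x => by
        refine le_trans (norm_integral_le_integral_norm _) ?_
        rw [← L1.norm_eq_integral_norm]
        exact resFun_norm hA x)

lemma fn_apply {A : Set α} (hA : MeasurableSet A) (x : Lp 𝕜 1 μ) :
    fn hA x = ∫ a, (res hA x : α → 𝕜) a ∂μ := rfl

lemma norm_fn_le {A : Set α} (hA : MeasurableSet A) (x : Lp 𝕜 1 μ) : ‖fn hA x‖ ≤ ‖res hA x‖ := by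
  rw [fn_apply, L1.norm_eq_integral_norm]
  exact norm_integral_le_integral_norm _

lemma res_ind {A : Set α} (hA : MeasurableSet A) (hμ : μ A ≠ ⊤) (c : 𝕜) :
    res hA (indicatorConstLp 1 hA hμ c) = indicatorConstLp 1 hA hμ c := by
  apply Lp.ext
  filter_upwards [res_coe hA (indicatorConstLp 1 hA hμ c), indicatorConstLp_coeFn (p := 1) (hs := hA) (hμs := hμ) (c := c)] with a h1 h2
  rw [h1]
  by_cases ha : a ∈ A
  · simp [ha]
  · rw [h2]; simp [ha]

lemma L1_index {A : Set α} (hA : MeasurableSet A) (h1 : μ A ≠ ⊤) (h2 : μ Aᶜ ≠ ⊤)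
    (h3 : μ.real A = 1/2) (h4 : μ.real Aᶜ = 1/2) : HalfBound 𝕜 (Lp 𝕜 1 μ) := by
  have hnorm : ∀ (B : Set α) (hB : MeasurableSet B) (hBμ : μ B ≠ ⊤), μ.real B = 1/2 →
      ‖(indicatorConstLp 1 hB hBμ (2 : 𝕜) : Lp 𝕜 1 μ)‖ = 1 := by
    intro B hB hBμ hh
    rw [norm_indicatorConstLp one_ne_zero ENNReal.one_ne_top, hh]
    simp
  have hval : ∀ (B : Set α) (hB : MeasurableSet B) (hBμ : μ B ≠ ⊤), μ.real B = 1/2 →
      fn hB (indicatorConstLp 1 hB hBμ (2 : 𝕜) : Lp 𝕜 1 μ) = 1 := by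
    intro B hB hBμ hh
    rw [fn_apply, res_ind, integral_indicatorConstLp]
    rw [hh]
    rw [RCLike.real_smul_eq_coe_mul]
    push_cast
    norm_num
  exact sum_index (res hA) (res hA.compl) (fn hA) (fn hA.compl) (res_add hA) (norm_res_add hA)
    (norm_fn_le hA) (norm_fn_le hA.compl) (indicatorConstLp 1 hA h1 2) (indicatorConstLp 1 hA.compl h2 2)
    (res_ind hA h1 2) (res_ind hA.compl h2 2) (hnorm _ _ _ h3) (hnorm _ _ _ h4) (hval _ _ _ h3) (hval _ _ _ h4)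

lemma L1_01 (𝕜 : Type*) [RCLike 𝕜] : HalfBound 𝕜 (Lp 𝕜 1 (volume.restrict (Set.Icc (0:ℝ) 1))) := by
  have hA : MeasurableSet (Set.Iic (1/2 : ℝ)) := measurableSet_Iic
  have e1 : (volume.restrict (Set.Icc (0:ℝ) 1)).real (Set.Iic (1/2 : ℝ)) = 1/2 := by
    rw [measureReal_restrict_apply hA]
    have : Set.Iic (1/2 : ℝ) ∩ Set.Icc (0:ℝ) 1 = Set.Icc 0 (1/2) := by
      ext x; simp only [Set.mem_inter_iff, Set.mem_Iic, Set.mem_Icc]
      constructor
      · rintro ⟨h1, h2, h3⟩; exact ⟨h2, h1⟩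
      · rintro ⟨h1, h2⟩; exact ⟨h2, h1, by linarith⟩
    rw [this]; simp [Measure.real]
  have e2 : (volume.restrict (Set.Icc (0:ℝ) 1)).real (Set.Iic (1/2 : ℝ))ᶜ = 1/2 := by
    rw [measureReal_restrict_apply hA.compl]
    have : (Set.Iic (1/2 : ℝ))ᶜ ∩ Set.Icc (0:ℝ) 1 = Set.Ioc (1/2) 1 := by
      ext x; simp only [Set.mem_inter_iff, Set.mem_compl_iff, Set.mem_Iic, Set.mem_Icc, Set.mem_Ioc, not_le]
      constructor
      · rintro ⟨h1, h2, h3⟩; exact ⟨h1, h3⟩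
      · rintro ⟨h1, h2⟩; exact ⟨h1, by linarith, h2⟩
    rw [this]; simp [Measure.real]; norm_num
  exact L1_index hA (measure_ne_top _ _) (measure_ne_top _ _) e1 e2

end L1

/-- **Polynomial numerical index of order 2 of `C[0,1]` and `L₁[0,1]`.**
For the real space `C[0,1]`, the real space `L₁[0,1]` and the complex space `L₁[0,1]` there is a
norm-one 2-homogeneous polynomial with numerical radius at most `1/2`, and the second polynomial
numerical index is at most `1/2`. In particular it is not `1` in any of the three cases. -/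
theorem result :
    HalfBound ℝ C(unitInterval, ℝ) ∧
    HalfBound ℝ (Lp ℝ 1 (volume.restrict (Set.Icc (0:ℝ) 1))) ∧
    HalfBound ℂ (Lp ℂ 1 (volume.restrict (Set.Icc (0:ℝ) 1))) :=
  ⟨cont_index, L1_01 ℝ, L1_01 ℂ⟩

end Pool.Agent.Results.MP_6cf06e_an.IndexNotOne
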